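import Pool.Agent.H24.Lib.seeded_620a6dc7.helper608_VF_.V10

/-!
# The form of Q1 without bounds for the dimension and the volume
-/

set_option autoImplicit false

namespace Pool.Agent.H608VF

open Finset
open Pool.Agent.Y806.DF Pool.Agent.R92.Star
open scoped Pointwise

universe u v

/-- The weak form of the conclusion of Q1 for the set `A`: `A` is covered by `C K ^ C` translates of
a set `ψ(X) + H` with at most `C K ^ C |A|` elements, where `H` is a finite subgroup, `ψ` a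
homomorphism on `ℤ ^ d`, and `X` a finite subset of `ℤ ^ d`, `d` arbitrary, with
`|X + X| ≤ C K ^ C |X|` and at most `C K ^ C |X|` integer points in its convex hull. Neither the
dimension `d` nor the numbers `|X|`, `|H|` are bounded. -/
def Weak {Γ : Type*} [AddCommGroup Γ] (C K : ℝ) (A : Finset Γ) : Prop :=
  ∃ (d : ℕ) (X : Finset (Fin d → ℤ)) (ψ : (Fin d → ℤ) →+ Γ) (H : AddSubgroup Γ) (T : Finset Γ),
    X.Nonempty ∧ ((X + X).card : ℝ) ≤ C * K ^ C * X.card ∧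
    ((hull X).ncard : ℝ) ≤ C * K ^ C * X.card ∧ Finite H ∧
    ((cpr (X : Set (Fin d → ℤ)) ψ H).ncard : ℝ) ≤ C * K ^ C * A.card ∧ (T.card : ℝ) ≤ C * K ^ C ∧
    ∀ a ∈ A, ∃ t ∈ T, ∃ y ∈ cpr (X : Set (Fin d → ℤ)) ψ H, a = t + y

theorem concl_of_weak (C : ℝ) : ∃ C' : ℝ, ∀ (Γ : Type u) [AddCommGroup Γ] [DecidableEq Γ]
    (K : ℝ) (A : Finset Γ), A.Nonempty → ((A + A).card : ℝ) ≤ K * A.card → Weak C K A →
    Concl C' K A := by
  classical
  obtain ⟨n, hn1, hn, hCK⟩ := nat_const C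
  obtain ⟨e, he⟩ : ∃ e : ℕ, e = 8366 := ⟨_, rfl⟩
  obtain ⟨q, hq⟩ : ∃ q : ℕ, q = 16777216 := ⟨_, rfl⟩
  obtain ⟨C', hC'⟩ := Pool.Agent.R424.EX.concl_of.{u} (q * n ^ e) (n * e)
  refine ⟨C', ?_⟩
  rintro Γ _ _ K A hA hK ⟨d, X, ψ, H, T, hX, hXX, hhull, hH, hsz, hT, hcov⟩
  have hK1 := one_le_K hA hK
  have hM := hCK K hK1
  have hn1r : (1 : ℝ) ≤ n := by exact_mod_cast hn1
  have hM1 : (1 : ℝ) ≤ n * K ^ n := by
    have : (1 : ℝ) ≤ K ^ n := one_le_pow₀ hK1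
    nlinarith
  obtain ⟨t, ht, ht2⟩ := pigeon T A A hA (fun t a => ∃ x ∈ X, ∃ h ∈ H, a = t + ψ x + h)
    subset_rfl (by
      intro a ha
      obtain ⟨t, ht, y, ⟨x, hx, h, hh, rfl⟩, e⟩ := hcov a ha
      exact ⟨t, ht, x, Finset.mem_coe.1 hx, h, hh, by rw [e, add_assoc]⟩)
  have hS : SData ((n : ℝ) * K ^ n) A X ψ H t := by
    refine ⟨hX, hH, ?_, ?_, ?_, ?_⟩
    · exact hXX.trans (mul_le_mul_of_nonneg_right hM (Nat.cast_nonneg _))
    · exact hhull.trans (mul_le_mul_of_nonneg_right hM (Nat.cast_nonneg _))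
    · exact hsz.trans (mul_le_mul_of_nonneg_right hM (Nat.cast_nonneg _))
    · have h1 : {a : Γ | a ∈ A ∧ ∃ x ∈ X, ∃ h ∈ H, a = t + ψ x + h} =
          ((A.filter (fun a => ∃ x ∈ X, ∃ h ∈ H, a = t + ψ x + h) : Finset Γ) : Set Γ) := by
        rw [Finset.coe_filter]
      rw [h1, Set.ncard_coe_finset]
      calc (A.card : ℝ) ≤ T.card *
            (A.filter (fun a => ∃ x ∈ X, ∃ h ∈ H, a = t + ψ x + h)).card := by
            exact_mod_cast ht2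
        _ ≤ _ := mul_le_mul_of_nonneg_right (hT.trans hM) (Nat.cast_nonneg _)
  obtain ⟨r, X', ψ', g', hD⟩ := to_data hA hM1 hS
  refine hC' Γ K A hA hK r X' ψ' H g' (hD.mono (le_of_eq ?_))
  rw [← he, mul_pow, ← pow_mul, Nat.cast_mul, Nat.cast_pow, hq]
  push_cast
  ring

theorem weak_of_concl (C : ℝ) : ∃ C' : ℝ, ∀ (Γ : Type u) [AddCommGroup Γ] [DecidableEq Γ]
    (K : ℝ) (A : Finset Γ), A.Nonempty → ((A + A).card : ℝ) ≤ K * A.card → Concl C K A →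
    Weak C' K A := by
  classical
  obtain ⟨n, hn1, hn, hCK⟩ := nat_const C
  obtain ⟨c, hc⟩ : ∃ c : ℕ, c = 4 ^ n := ⟨_, rfl⟩
  refine ⟨(c : ℝ), ?_⟩
  rintro Γ _ _ K A hA hK ⟨d, B, ψ, H, T, hd, hB, hH, hvol, hT, hcov⟩
  have hK1 := one_le_K hA hK
  have hN := poly_le hn1 hK1
  rw [← hc] at hN
  have hCM : C * K ^ C ≤ (c : ℝ) * K ^ c := (hCK K hK1).trans hN
  have hc1 : (1 : ℝ) ≤ c := by rw [hc]; exact_mod_cast Nat.one_le_pow _ _ (by norm_num)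
  have hM1 : (1 : ℝ) ≤ c * K ^ c := by
    have : (1 : ℝ) ≤ K ^ c := one_le_pow₀ hK1
    nlinarith
  have hd4 := four_pow hn hK1 hd
  rw [← hc] at hd4
  have hfin : (lat B).Finite := lat_finite hB.2.1.isBounded
  have hsz : ((cpr (lat B) ψ H).ncard : ℝ) ≤ (c * K ^ c) * A.card := by
    have h1 := (ncard_cpr_le hfin ψ H).trans hvol
    calc ((cpr (lat B) ψ H).ncard : ℝ) ≤ 1 * A.card := by rw [one_mul]; exact_mod_cast h1
      _ ≤ _ := mul_le_mul_of_nonneg_right hM1 (Nat.cast_nonneg _)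
  obtain ⟨X, g, hX, hS⟩ := sdata_of_cov hA hM1 hd4 hB hH hsz (hT.trans hCM) hcov
  refine ⟨d, X, ψ, H, T, hS.ne, ?_, ?_, hH, ?_, ?_, ?_⟩
  · rw [Real.rpow_natCast]; exact hS.doubling
  · rw [Real.rpow_natCast]; exact hS.dense
  · rw [Real.rpow_natCast]; exact hS.size
  · rw [Real.rpow_natCast]; exact hT.trans hCM
  · intro a ha
    obtain ⟨t, ht, x, hx, h, hh, e⟩ := hcov a ha
    exact ⟨t, ht, ψ x + h, ⟨x, by rw [hX]; exact hx, h, hh, rfl⟩, by rw [e, add_assoc]⟩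

end Pool.Agent.H608VF
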