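import Pool.Agent.H24.Lib.seeded_620a6dc7.helper608_VF_.V4
import Pool.Agent.H24.Lib.R_seed8.R424.EX.Link

/-!
# The volume comes for free: coset progressions
-/

set_option autoImplicit false

namespace Pool.Agent.H608VF

open Finset
open Pool.Agent.Y806.DF
open scoped Pointwise

/-- the coset progression `ψ(V) + H` -/
def cpr {Γ : Type*} [AddCommGroup Γ] {r : ℕ} (V : Set (Fin r → ℤ)) (ψ : (Fin r → ℤ) →+ Γ)
    (H : AddSubgroup Γ) : Set Γ := {y | ∃ v ∈ V, ∃ h ∈ H, y = ψ v + h}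

theorem cpr_eq {Γ : Type*} [AddCommGroup Γ] {r : ℕ} (V : Set (Fin r → ℤ)) (ψ : (Fin r → ℤ) →+ Γ)
    (H : AddSubgroup Γ) : cpr V ψ H =
      (QuotientAddGroup.mk' H) ⁻¹' (((QuotientAddGroup.mk' H).comp ψ) '' V) := by
  ext y
  constructor
  · rintro ⟨v, hv, h, hh, rfl⟩
    refine ⟨v, hv, ?_⟩
    show (QuotientAddGroup.mk' H) (ψ v) = (QuotientAddGroup.mk' H) (ψ v + h)
    rw [map_add]
    have : (QuotientAddGroup.mk' H) h = 0 := (QuotientAddGroup.eq_zero_iff h).2 hh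
    rw [this, add_zero]
  · rintro ⟨v, hv, hvy⟩
    have h1 : (QuotientAddGroup.mk' H) (y - ψ v) = 0 := by
      rw [map_sub]
      exact sub_eq_zero.2 hvy.symm
    refine ⟨v, hv, y - ψ v, (QuotientAddGroup.eq_zero_iff _).1 h1, by abel⟩

theorem ncard_cpr {Γ : Type*} [AddCommGroup Γ] {r : ℕ} (V : Set (Fin r → ℤ))
    (ψ : (Fin r → ℤ) →+ Γ) (H : AddSubgroup Γ) : (cpr V ψ H).ncard =
      (((QuotientAddGroup.mk' H).comp ψ) '' V).ncard * Nat.card H := by
  rw [cpr_eq]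
  have h1 := Nat.card_congr (QuotientAddGroup.preimageMkEquivAddSubgroupProdSet H
    (((QuotientAddGroup.mk' H).comp ψ) '' V))
  rw [Nat.card_prod] at h1
  rw [← Nat.card_coe_set_eq, ← Nat.card_coe_set_eq, mul_comm]
  exact h1

/-- **A convex coset progression is covered by few translates of one of at most its size.** -/
theorem proper {Γ : Type*} [AddCommGroup Γ] {r : ℕ} {B : Set (Fin r → ℝ)} (hB : Body B)
    (ψ : (Fin r → ℤ) →+ Γ) (H : AddSubgroup Γ) [Finite H] :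
    ∃ (Q : Set (Fin r → ℝ)) (T : Finset Γ), Body Q ∧ (T.card : ℝ) ≤ (10 ^ 12) ^ r ∧
      (lat Q).ncard * Nat.card H ≤ (cpr (lat B) ψ H).ncard ∧
      ∀ a ∈ cpr (lat B) ψ H, ∃ t ∈ T, ∃ b ∈ cpr (lat Q) ψ H, a = t + b := by
  classical
  have hBs : Sym B := ⟨hB.1, hB.2.1, hB.2.2.2, hB.2.2.1.mono interior_subset⟩
  obtain ⟨Q, F, hQ, hF, hn, hcov⟩ := core hBs ((QuotientAddGroup.mk' H).comp ψ)
  set m : ℕ := (((QuotientAddGroup.mk' H).comp ψ) '' lat B).ncard with hm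
  have hBf : (lat B).Finite := lat_finite hBs.comp.isBounded
  have h0B : (0 : Fin r → ℤ) ∈ lat B := by
    show re 0 ∈ B
    have : re (0 : Fin r → ℤ) = 0 := by funext i; simp [re]
    rw [this]; exact hBs.zero
  have hm1 : 1 ≤ m := by
    rw [hm, Nat.one_le_iff_ne_zero, ← Nat.pos_iff_ne_zero, Set.ncard_pos (hBf.image _)]
    exact ⟨_, 0, h0B, rfl⟩
  have hm1r : (1 : ℝ) ≤ m := by exact_mod_cast hm1
  obtain ⟨s, F', hs, hsm, hF', hcov'⟩ := scale hQ hm1r
  obtain ⟨Q', hQ', hlat⟩ := fatten (hQ.smul s)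
  have hnum : (num Q 1 : ℝ) ≤ 6720 ^ r * m := by
    have : num Q 1 = (lat Q).ncard := by unfold num; rw [one_smul]
    rw [this]; exact hn
  refine ⟨Q', (F ×ˢ F').image (fun p => ψ p.1 + ψ p.2), hQ', ?_, ?_, ?_⟩
  · have h1 : ((F ×ˢ F').image (fun p => ψ p.1 + ψ p.2)).card ≤ F.card * F'.card := by
      refine Finset.card_image_le.trans ?_
      rw [Finset.card_product]
    have h2 : (F'.card : ℝ) ≤ 1024 ^ r * 6720 ^ r := by
      refine hF'.trans (mul_le_mul_of_nonneg_left ?_ (by positivity))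
      apply max_le (one_le_pow₀ (by norm_num))
      rw [div_le_iff₀ (by linarith)]
      exact hnum
    calc (((F ×ˢ F').image (fun p => ψ p.1 + ψ p.2)).card : ℝ) ≤ F.card * F'.card := by
          exact_mod_cast h1
      _ ≤ 49152 ^ r * (1024 ^ r * 6720 ^ r) := mul_le_mul hF h2 (Nat.cast_nonneg _) (by positivity)
      _ = (49152 * (1024 * 6720)) ^ r := by rw [mul_pow, mul_pow]
      _ ≤ (10 ^ 12) ^ r := pow_le_pow_left₀ (by norm_num) (by norm_num) r
  · rw [hlat, ncard_cpr]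
    refine Nat.mul_le_mul_right _ ?_
    have : ((num Q s : ℕ) : ℝ) ≤ m := hsm
    exact_mod_cast this
  · rintro a ⟨v, hv, h, hh, rfl⟩
    obtain ⟨f, hf, w, hw, hvw⟩ := hcov v hv
    have hw2 : w ∈ lat ((2 : ℝ) • Q) := by
      refine lat_mono ?_ hw
      have := hQ.mono (by norm_num : (0 : ℝ) ≤ 1) (by norm_num : (1 : ℝ) ≤ 2)
      rwa [one_smul] at this
    obtain ⟨f', hf', u, hu, rfl⟩ := hcov' w hw2
    have hu' : u ∈ lat Q' := by
      rw [hlat]
      exact lat_mono (hQ.mono (by positivity) (by linarith)) hu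
    have h1 : ψ v - (ψ f + ψ (f' + u)) ∈ H := by
      rw [← QuotientAddGroup.eq_zero_iff]
      have h2 : (QuotientAddGroup.mk' H) (ψ v) = (QuotientAddGroup.mk' H) (ψ f) +
        (QuotientAddGroup.mk' H) (ψ (f' + u)) := hvw
      show (QuotientAddGroup.mk' H) (ψ v - (ψ f + ψ (f' + u))) = 0
      rw [map_sub, map_add, h2, sub_self]
    refine ⟨ψ f + ψ f', Finset.mem_image.2 ⟨(f, f'), Finset.mk_mem_product hf hf', rfl⟩,
      ψ u + (ψ v - (ψ f + ψ (f' + u)) + h), ⟨u, hu', _, H.add_mem h1 hh, rfl⟩, ?_⟩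
    rw [map_add]
    abel

/-- The hypotheses: a coset progression of arbitrary dimension and volume; only the number of its
elements is bounded. -/
structure SData {Γ : Type*} [AddCommGroup Γ] [DecidableEq Γ] (K : ℝ) (A : Finset Γ) {d : ℕ}
    (X : Finset (Fin d → ℤ)) (ψ : (Fin d → ℤ) →+ Γ) (H : AddSubgroup Γ) (g : Γ) : Prop where
  ne : X.Nonempty
  fin : Finite H
  doubling : ((X + X).card : ℝ) ≤ K * X.card
  dense : ((hull X).ncard : ℝ) ≤ K * X.card
  size : ((cpr (X : Set (Fin d → ℤ)) ψ H).ncard : ℝ) ≤ K * A.card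
  meet : (A.card : ℝ) ≤ K * ({a : Γ | a ∈ A ∧ ∃ x ∈ X, ∃ h ∈ H, a = g + ψ x + h}.ncard : ℝ)

theorem ruzsa_diff {G : Type*} [AddCommGroup G] [DecidableEq G] {Y : Finset G} (hY : Y.Nonempty)
    {M : ℝ} (h : ((Y + Y).card : ℝ) ≤ M * Y.card) : ((Y - Y).card : ℝ) ≤ M ^ 2 * Y.card := by
  have h1 := Finset.ruzsa_triangle_inequality_sub_add_add Y Y Y
  have h0 : (0 : ℝ) < Y.card := by exact_mod_cast hY.card_pos
  have h2 : ((Y - Y).card : ℝ) * Y.card ≤ (Y + Y).card * (Y + Y).card := by exact_mod_cast h1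
  have h3 : (0 : ℝ) ≤ (Y + Y).card := Nat.cast_nonneg _
  have h4 : ((Y + Y).card : ℝ) * (Y + Y).card ≤ (M * Y.card) * (M * Y.card) :=
    mul_le_mul h h h3 (h3.trans h)
  have h5 : ((Y - Y).card : ℝ) * Y.card ≤ (M ^ 2 * Y.card) * Y.card := by
    calc _ ≤ _ := h2
      _ ≤ _ := h4
      _ = _ := by ring
  exact le_of_mul_le_mul_right h5 h0

theorem pow_bound2 {K : ℝ} (hK : 1 ≤ K) {r : ℕ} (hr : (r : ℝ) ≤ 480 * Real.log K + 1) {c : ℝ}
    (hc0 : 0 ≤ c) (hc : c ≤ 4096 ^ 2) : c ^ r ≤ 16777216 * K ^ 7986 := by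
  have h1 := pow_bound hK hr
  calc c ^ r ≤ (4096 ^ 2) ^ r := pow_le_pow_left₀ hc0 hc r
    _ = (4096 ^ r) ^ 2 := by rw [← pow_mul, ← pow_mul, mul_comm]
    _ ≤ (4096 * K ^ 3993) ^ 2 := pow_le_pow_left₀ (by positivity) h1 2
    _ = 16777216 * K ^ 7986 := by rw [mul_pow, ← pow_mul]; norm_num

/-- From a coset progression with few elements to one with a small volume. -/
theorem to_data {Γ : Type*} [AddCommGroup Γ] [DecidableEq Γ] {K : ℝ} {A : Finset Γ}
    (hA : A.Nonempty) (hK1 : 1 ≤ K) {d : ℕ} {X : Finset (Fin d → ℤ)}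
    {ψ : (Fin d → ℤ) →+ Γ} {H : AddSubgroup Γ} {g : Γ} (hD : SData K A X ψ H g) :
    ∃ (r : ℕ) (X' : Finset (Fin r → ℤ)) (ψ' : (Fin r → ℤ) →+ Γ) (g' : Γ),
      Data (16777216 * K ^ 8366) A X' ψ' H g' := by
  classical
  have hK0 : 0 < K := by linarith
  have hAr : (0 : ℝ) < A.card := by exact_mod_cast hA.card_pos
  have hHfin := hD.fin
  have hHpos : 0 < Nat.card H := Nat.card_pos
  have hHr : (0 : ℝ) < Nat.card H := by exact_mod_cast hHpos
  obtain ⟨r, φ, B, F₀, hr, hB, hnum, hF₀, hcov₀⟩ := struct X hD.ne hK1 hD.doubling hD.dense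
  set p := QuotientAddGroup.mk' H with hp
  obtain ⟨Q, F, hQ, hF, hn, hcov⟩ := core (hB.smul 2) (p.comp (ψ.comp φ))
  have hXpos : 0 < X.card := hD.ne.card_pos
  have hXr : (0 : ℝ) < X.card := by exact_mod_cast hXpos
  have h2f : (lat ((2 : ℝ) • B)).Finite := hB.finite 2
  -- a popular element of `F₀`
  obtain ⟨f₀, hf₀, hpop⟩ := pigeon F₀ X X hD.ne (fun f x => ∃ w ∈ lat ((2 : ℝ) • B), x = f + φ w)
    (Finset.Subset.refl _) (fun x hx => hcov₀ x hx)
  set D : Finset (Fin r → ℤ) := h2f.toFinset.filter (fun w => f₀ + φ w ∈ X) with hDdef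
  have hDcard : (X.filter (fun x => ∃ w ∈ lat ((2 : ℝ) • B), x = f₀ + φ w)).card ≤ D.card := by
    have h1 : X.filter (fun x => ∃ w ∈ lat ((2 : ℝ) • B), x = f₀ + φ w) ⊆
        D.image (fun w => f₀ + φ w) := by
      intro x hx
      obtain ⟨hx1, w, hw, rfl⟩ := Finset.mem_filter.1 hx
      exact Finset.mem_image.2 ⟨w, Finset.mem_filter.2 ⟨(Set.Finite.mem_toFinset _).2 hw, hx1⟩, rfl⟩
    exact (Finset.card_le_card h1).trans Finset.card_image_le
  have hDX : (X.card : ℝ) ≤ F₀.card * D.card := by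
    exact_mod_cast hpop.trans (Nat.mul_le_mul_left _ hDcard)
  have hDne : D.Nonempty := by
    rw [← Finset.card_pos]
    by_contra h
    have h0 : D.card = 0 := by omega
    rw [h0, Nat.cast_zero, mul_zero] at hDX
    linarith
  have hDr : (0 : ℝ) < D.card := by exact_mod_cast hDne.card_pos
  -- covering of `lat (2 B)` by translates of `D - D`
  have h4f : (lat ((4 : ℝ) • B)).Finite := hB.finite 4
  have hsub : h2f.toFinset + D ⊆ h4f.toFinset := by
    intro x hx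
    obtain ⟨a, ha, b, hb, rfl⟩ := Finset.mem_add.1 hx
    rw [Set.Finite.mem_toFinset] at ha ⊢
    have hb' : b ∈ lat ((2 : ℝ) • B) := (Set.Finite.mem_toFinset _).1 (Finset.mem_filter.1 hb).1
    have h5 := hB.add (by norm_num) (by norm_num) ha hb'
    have e : (2 : ℝ) + 2 = 4 := by norm_num
    rwa [e] at h5
  have hle : ((h2f.toFinset + D).card : ℝ) ≤ (16 ^ r * K * F₀.card) * D.card := by
    have e4 : num B 4 = h4f.toFinset.card := Set.ncard_eq_toFinset_card _ h4f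
    have h7 := num_pow hB (t := 1) (by norm_num) 2
    have e : num B (2 ^ 2 * 1) = num B 4 := by norm_num
    rw [e] at h7
    have h8 : ((num B 4 : ℕ) : ℝ) ≤ (16 : ℝ) ^ r * num B 1 := by
      have h9 : ((num B 4 : ℕ) : ℝ) ≤ (((4 ^ 2) ^ r * num B 1 : ℕ) : ℝ) := by exact_mod_cast h7
      push_cast at h9
      norm_num at h9
      exact h9
    calc ((h2f.toFinset + D).card : ℝ) ≤ num B 4 := by
          rw [e4]; exact_mod_cast Finset.card_le_card hsub
      _ ≤ 16 ^ r * num B 1 := h8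
      _ ≤ 16 ^ r * (K * X.card) := mul_le_mul_of_nonneg_left hnum (by positivity)
      _ ≤ 16 ^ r * (K * (F₀.card * D.card)) :=
        mul_le_mul_of_nonneg_left (mul_le_mul_of_nonneg_left hDX hK0.le) (by positivity)
      _ = _ := by ring
  obtain ⟨F₃, -, hF₃, hcov₃⟩ := Finset.ruzsa_covering_add hDne hle
  -- the size of the image of `lat (2 B)`
  set Y : Finset (Γ ⧸ H) := X.image (fun x => p (ψ x)) with hY
  have hYne : Y.Nonempty := hD.ne.image _
  have hYdoub : ((Y + Y).card : ℝ) ≤ K ^ 3 * Y.card :=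
    Pool.Agent.R424.EX.image_doubling (p.comp ψ) hD.ne hD.doubling
  have hYdiff := ruzsa_diff hYne hYdoub
  have hYY : ((Y - Y).card : ℝ) ≤ K ^ 6 * Y.card := by
    calc ((Y - Y).card : ℝ) ≤ (K ^ 3) ^ 2 * Y.card := hYdiff
      _ = K ^ 6 * Y.card := by rw [← pow_mul]
  have himg : ((p.comp (ψ.comp φ)) '' lat ((2 : ℝ) • B)) ⊆
      ((F₃.image (p.comp (ψ.comp φ)) + (Y - Y) : Finset (Γ ⧸ H)) : Set (Γ ⧸ H)) := by
    rintro _ ⟨v, hv, rfl⟩
    obtain ⟨f, hf, e, he, rfl⟩ := Finset.mem_add.1 (hcov₃ ((Set.Finite.mem_toFinset _).2 hv))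
    obtain ⟨a, ha, b, hb, rfl⟩ := Finset.mem_sub.1 he
    rw [Finset.mem_coe, map_add]
    refine Finset.add_mem_add (Finset.mem_image_of_mem _ hf) ?_
    have h1 : (p.comp (ψ.comp φ)) (a - b) = p (ψ (f₀ + φ a)) - p (ψ (f₀ + φ b)) := by
      show p (ψ (φ (a - b))) = _
      rw [← map_sub, ← map_sub]
      congr 2
      rw [map_sub]
      abel
    rw [h1]
    exact Finset.sub_mem_sub
      (Finset.mem_image.2 ⟨_, (Finset.mem_filter.1 ha).2, rfl⟩)
      (Finset.mem_image.2 ⟨_, (Finset.mem_filter.1 hb).2, rfl⟩)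
  have himgcard : ((((p.comp (ψ.comp φ)) '' lat ((2 : ℝ) • B)).ncard : ℕ) : ℝ) ≤
      (16 ^ r * K * F₀.card) * (K ^ 6 * Y.card) := by
    have h1 : ((p.comp (ψ.comp φ)) '' lat ((2 : ℝ) • B)).ncard ≤ F₃.card * (Y - Y).card := by
      calc _ ≤ (F₃.image (p.comp (ψ.comp φ)) + (Y - Y)).card := by
            rw [← Set.ncard_coe_finset]
            exact Set.ncard_le_ncard himg (Finset.finite_toSet _)
        _ ≤ (F₃.image (p.comp (ψ.comp φ))).card * (Y - Y).card := Finset.card_add_le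
        _ ≤ F₃.card * (Y - Y).card := Nat.mul_le_mul_right _ Finset.card_image_le
    calc ((((p.comp (ψ.comp φ)) '' lat ((2 : ℝ) • B)).ncard : ℕ) : ℝ)
        ≤ F₃.card * (Y - Y).card := by exact_mod_cast h1
      _ ≤ _ := mul_le_mul hF₃ hYY (Nat.cast_nonneg _) (by positivity)
  have hYH : (Y.card : ℝ) * Nat.card H ≤ K * A.card := by
    have h1 := hD.size
    rw [ncard_cpr] at h1
    have h2 : (((QuotientAddGroup.mk' H).comp ψ) '' (X : Set (Fin d → ℤ))) = (Y : Set (Γ ⧸ H)) := by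
      rw [hY, Finset.coe_image]; rfl
    rw [h2, Set.ncard_coe_finset] at h1
    exact_mod_cast h1
  have hF₀' : (F₀.card : ℝ) ≤ K ^ 372 * 4 ^ r := hF₀
  -- the part of `A`
  set A1 := A.filter (fun a => ∃ x ∈ X, ∃ h ∈ H, a = g + ψ x + h) with hA1
  have hmeet : (A.card : ℝ) ≤ K * A1.card := by
    have h1 := hD.meet
    have h2 : {a : Γ | a ∈ A ∧ ∃ x ∈ X, ∃ h ∈ H, a = g + ψ x + h} = (A1 : Set Γ) := by
      ext a
      rw [hA1, Finset.coe_filter]
    rw [h2, Set.ncard_coe_finset] at h1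
    exact h1
  have hA1ne : A1.Nonempty := by
    rw [← Finset.card_pos]
    by_contra h
    have h0 : A1.card = 0 := by omega
    rw [h0, Nat.cast_zero, mul_zero] at hmeet
    linarith
  obtain ⟨q, hq, hq2⟩ := pigeon (F₀ ×ˢ F) A A1 hA1ne
    (fun q a => ∃ u ∈ lat Q, ∃ h ∈ H, a = (g + ψ q.1 + ψ (φ q.2)) + (ψ.comp φ) u + h)
    (Finset.filter_subset _ _) (by
      intro a ha
      obtain ⟨-, x, hx, h, hh, rfl⟩ := Finset.mem_filter.1 ha
      obtain ⟨f, hf, w, hw, rfl⟩ := hcov₀ x hx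
      obtain ⟨f', hf', u, hu, hwu⟩ := hcov w hw
      refine ⟨(f, f'), Finset.mk_mem_product hf hf', u, hu, ?_⟩
      have h1 : ψ (φ w) - (ψ (φ f') + ψ (φ u)) ∈ H := by
        rw [← QuotientAddGroup.eq_zero_iff]
        have h2 : p (ψ (φ w)) = p (ψ (φ f')) + p (ψ (φ u)) := hwu
        show p (ψ (φ w) - (ψ (φ f') + ψ (φ u))) = 0
        rw [map_sub, map_add, h2, sub_self]
      refine ⟨_, H.add_mem h1 hh, ?_⟩
      show g + ψ (f + φ w) + h = g + ψ f + ψ (φ f') + ψ (φ u) + (ψ (φ w) - (ψ (φ f') + ψ (φ u)) + h)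
      rw [map_add]
      abel)
  have hQf : (lat Q).Finite := lat_finite hQ.comp.isBounded
  have hX'mem : ∀ u, u ∈ hQf.toFinset ↔ u ∈ lat Q := fun u => Set.Finite.mem_toFinset _
  have hX'card : (hQf.toFinset.card : ℝ) = ((lat Q).ncard : ℝ) := by
    rw [Set.ncard_eq_toFinset_card _ hQf]
  have h0Q : (0 : Fin r → ℤ) ∈ lat Q := by
    show re 0 ∈ Q
    have : re (0 : Fin r → ℤ) = 0 := by funext i; simp [re]
    rw [this]; exact hQ.zero
  have hcr : ∀ c : ℝ, 0 ≤ c → c ≤ 4096 ^ 2 → ∀ k : ℕ, k ≤ 380 →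
      c ^ r * K ^ k ≤ 16777216 * K ^ 8366 := by
    intro c hc0 hc k hk
    calc c ^ r * K ^ k ≤ (16777216 * K ^ 7986) * K ^ 380 :=
          mul_le_mul (pow_bound2 hK1 hr hc0 hc) (pow_le_pow_right₀ hK1 hk) (by positivity)
            (by positivity)
      _ = 16777216 * K ^ 8366 := by ring
  refine ⟨r, hQf.toFinset, ψ.comp φ, g + ψ q.1 + ψ (φ q.2), ⟨⟨0, (hX'mem 0).2 h0Q⟩, hHfin, ?_, ?_, ?_, ?_⟩⟩
  · -- doubling
    have h1 : (hQf.toFinset + hQf.toFinset).card ≤ num Q 2 := by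
      rw [num, Set.ncard_eq_toFinset_card _ (hQ.finite 2)]
      refine Finset.card_le_card ?_
      intro x hx
      obtain ⟨a, ha, b, hb, rfl⟩ := Finset.mem_add.1 hx
      rw [Set.Finite.mem_toFinset] at ha hb ⊢
      have ha' : a ∈ lat ((1 : ℝ) • Q) := by rwa [one_smul]
      have hb' : b ∈ lat ((1 : ℝ) • Q) := by rwa [one_smul]
      have h5 := hQ.add (by norm_num) (by norm_num) ha' hb'
      have e : (1 : ℝ) + 1 = 2 := by norm_num
      rwa [e] at h5
    have h2 := num_double hQ (t := 1) (by norm_num)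
    rw [mul_one] at h2
    have h3 : num Q 1 = hQf.toFinset.card := by
      unfold num; rw [one_smul]; exact Set.ncard_eq_toFinset_card _ hQf
    rw [h3] at h2
    calc ((hQf.toFinset + hQf.toFinset).card : ℝ) ≤ ((4 ^ r * hQf.toFinset.card : ℕ) : ℝ) := by
          exact_mod_cast h1.trans h2
      _ = (4 ^ r * K ^ 0) * hQf.toFinset.card := by push_cast; ring
      _ ≤ (16777216 * K ^ 8366) * hQf.toFinset.card :=
        mul_le_mul_of_nonneg_right (hcr 4 (by norm_num) (by norm_num) 0 (by norm_num))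
          (Nat.cast_nonneg _)
  · -- density
    have h1 : hull hQf.toFinset ⊆ lat Q := by
      refine lat_mono (convexHull_min ?_ hQ.conv)
      rintro _ ⟨u, hu, rfl⟩
      exact (hX'mem u).1 (Finset.mem_coe.1 hu)
    have h2 : ((hull hQf.toFinset).ncard : ℝ) ≤ (lat Q).ncard := by
      exact_mod_cast Set.ncard_le_ncard h1 hQf
    rw [← hX'card] at h2
    refine h2.trans ?_
    have h3 : (1 : ℝ) ≤ 16777216 * K ^ 8366 := by
      have := one_le_pow₀ hK1 (n := 8366)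
      linarith
    calc (hQf.toFinset.card : ℝ) = 1 * hQf.toFinset.card := (one_mul _).symm
      _ ≤ _ := mul_le_mul_of_nonneg_right h3 (Nat.cast_nonneg _)
  · -- size
    rw [hX'card]
    calc ((lat Q).ncard : ℝ) * Nat.card H
        ≤ (6720 ^ r * ((16 ^ r * K * F₀.card) * (K ^ 6 * Y.card))) * Nat.card H :=
          mul_le_mul_of_nonneg_right (hn.trans (mul_le_mul_of_nonneg_left himgcard (by positivity)))
            hHr.le
      _ = (6720 ^ r * (16 ^ r * K * F₀.card) * K ^ 6) * (Y.card * Nat.card H) := by ring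
      _ ≤ (6720 ^ r * (16 ^ r * K * (K ^ 372 * 4 ^ r)) * K ^ 6) * (K * A.card) := by
          refine mul_le_mul ?_ hYH (by positivity) (by positivity)
          gcongr
      _ = ((6720 * 16 * 4) ^ r * K ^ 380) * A.card := by
          rw [mul_pow, mul_pow]; ring
      _ ≤ (16777216 * K ^ 8366) * A.card :=
        mul_le_mul_of_nonneg_right (hcr _ (by norm_num) (by norm_num) 380 le_rfl) hAr.le
  · -- meet
    have h1 : {a : Γ | a ∈ A ∧ ∃ x ∈ hQf.toFinset, ∃ h ∈ H,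
        a = g + ψ q.1 + ψ (φ q.2) + (ψ.comp φ) x + h} =
        ((A.filter (fun a => ∃ u ∈ lat Q, ∃ h ∈ H,
          a = (g + ψ q.1 + ψ (φ q.2)) + (ψ.comp φ) u + h) : Finset Γ) : Set Γ) := by
      ext a
      rw [Finset.coe_filter]
      simp only [Set.mem_setOf_eq, hX'mem]
    rw [h1, Set.ncard_coe_finset]
    have h2 : (A1.card : ℝ) ≤ (F₀.card * F.card) * ((A.filter (fun a => ∃ u ∈ lat Q, ∃ h ∈ H,
          a = (g + ψ q.1 + ψ (φ q.2)) + (ψ.comp φ) u + h)).card : ℝ) := by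
      have h3 := hq2
      rw [Finset.card_product] at h3
      exact_mod_cast h3
    calc (A.card : ℝ) ≤ K * A1.card := hmeet
      _ ≤ K * ((F₀.card * F.card) * ((A.filter (fun a => ∃ u ∈ lat Q, ∃ h ∈ H,
          a = (g + ψ q.1 + ψ (φ q.2)) + (ψ.comp φ) u + h)).card : ℝ)) :=
          mul_le_mul_of_nonneg_left h2 hK0.le
      _ ≤ K * (((K ^ 372 * 4 ^ r) * 49152 ^ r) * ((A.filter (fun a => ∃ u ∈ lat Q, ∃ h ∈ H,
          a = (g + ψ q.1 + ψ (φ q.2)) + (ψ.comp φ) u + h)).card : ℝ)) := by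
          gcongr
      _ = ((4 * 49152) ^ r * K ^ 373) * ((A.filter (fun a => ∃ u ∈ lat Q, ∃ h ∈ H,
          a = (g + ψ q.1 + ψ (φ q.2)) + (ψ.comp φ) u + h)).card : ℝ) := by
          rw [mul_pow]; ring
      _ ≤ _ := mul_le_mul_of_nonneg_right (hcr _ (by norm_num) (by norm_num) 373 (by norm_num))
          (Nat.cast_nonneg _)

end Pool.Agent.H608VF
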