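import Pool.Agent.H24.Lib.seeded_620a6dc7.helper608_VF_.V5

/-!
# Lifting sets from groups of small rank to `ℤ^r`
-/

set_option autoImplicit false

namespace Pool.Agent.H608VF

open Finset
open Pool.Agent.Y806.DF Pool.Agent.R92.Star
open scoped Pointwise

universe u

/-- boxes -/
noncomputable def bx (r N : ℕ) : Finset (Fin r → ℤ) := Fintype.piFinset fun _ => Finset.Icc (-(N : ℤ)) N

theorem mem_bx {r N : ℕ} {v : Fin r → ℤ} : v ∈ bx r N ↔ ∀ i, -(N : ℤ) ≤ v i ∧ v i ≤ N := by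
  simp only [bx, Fintype.mem_piFinset, Finset.mem_Icc]

section box

variable {Δ : Type*} [AddCommGroup Δ] [DecidableEq Δ] {r : ℕ} (φ : (Fin r → ℤ) →+ Δ)

/-- the number of the elements of the kernel in a box -/
noncomputable def lam (N : ℕ) : ℕ := ((bx r N).filter (fun v => φ v = 0)).card

theorem lam_double {N : ℕ} (hN : 1 ≤ N) : lam φ (2 * N) ≤ 5 ^ r * lam φ N := by
  have hN0 : (0 : ℤ) < N := by exact_mod_cast hN
  set f : (Fin r → ℤ) → (Fin r → ℤ) := fun v i => (v i + 2 * N) / N with hf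
  have h1 := Finset.card_le_mul_card_image_of_maps_to (f := f)
    (s := (bx r (2 * N)).filter (fun v => φ v = 0))
    (t := Fintype.piFinset fun _ => Finset.Icc (0 : ℤ) 4) (by
      intro v hv
      have hv' := mem_bx.1 (Finset.mem_filter.1 hv).1
      rw [Fintype.mem_piFinset]
      intro i
      rw [Finset.mem_Icc]
      obtain ⟨h2, h3⟩ := hv' i
      push_cast at h2 h3
      constructor
      · exact Int.ediv_nonneg (by linarith) hN0.le
      · have : v i + 2 * N ≤ 4 * N := by linarith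
        calc (v i + 2 * N) / N ≤ (4 * N) / N := Int.ediv_le_ediv hN0 this
          _ = 4 := Int.mul_ediv_cancel _ hN0.ne') (lam φ N) (by
      intro b _
      by_cases hne : (((bx r (2 * N)).filter (fun v => φ v = 0)).filter (fun v => f v = b)).Nonempty
      · obtain ⟨x0, hx0⟩ := hne
        obtain ⟨hx0a, hx0b⟩ := Finset.mem_filter.1 hx0
        obtain ⟨-, hx0c⟩ := Finset.mem_filter.1 hx0a
        refine Finset.card_le_card_of_injOn (fun v => v - x0) ?_ ?_
        · intro v hv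
          obtain ⟨hva, hvb⟩ := Finset.mem_filter.1 (Finset.mem_coe.1 hv)
          obtain ⟨-, hvc⟩ := Finset.mem_filter.1 hva
          rw [Finset.mem_coe, Finset.mem_filter]
          refine ⟨mem_bx.2 fun i => ?_, by rw [map_sub, hvc, hx0c, sub_zero]⟩
          have h4 : (v i + 2 * N) / N = (x0 i + 2 * N) / N := by
            have := congrFun (hvb.trans hx0b.symm) i
            exact this
          have h5 := Int.mul_ediv_add_emod (v i + 2 * N) N
          have h6 := Int.mul_ediv_add_emod (x0 i + 2 * N) N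
          have h7 := Int.emod_nonneg (v i + 2 * N) hN0.ne'
          have h8 := Int.emod_nonneg (x0 i + 2 * N) hN0.ne'
          have h9 := Int.emod_lt_of_pos (v i + 2 * N) hN0
          have h10 := Int.emod_lt_of_pos (x0 i + 2 * N) hN0
          rw [h4] at h5
          show -(N : ℤ) ≤ v i - x0 i ∧ v i - x0 i ≤ N
          constructor <;> linarith
        · intro v _ w _ h
          exact sub_left_injective h
      · rw [Finset.not_nonempty_iff_eq_empty.1 hne]
        simp)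
  have h2 : (Fintype.piFinset fun _ : Fin r => Finset.Icc (0 : ℤ) 4).card = 5 ^ r := by
    rw [Fintype.card_piFinset]
    simp
  rw [h2] at h1
  calc lam φ (2 * N) ≤ lam φ N * 5 ^ r := h1
    _ = _ := mul_comm _ _

theorem lam_pos (N : ℕ) : 0 < lam φ N := by
  refine Finset.card_pos.2 ⟨0, Finset.mem_filter.2 ⟨mem_bx.2 fun i => ?_, map_zero φ⟩⟩
  simp

/-- elements of the box over `E` -/
theorem upper (E : Finset Δ) (N : ℕ) :
    ((bx r N).filter (fun v => φ v ∈ E)).card ≤ E.card * lam φ (2 * N) := by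
  have h1 := Finset.card_le_mul_card_image_of_maps_to (f := φ)
    (s := (bx r N).filter (fun v => φ v ∈ E)) (t := E)
    (fun v hv => (Finset.mem_filter.1 hv).2) (lam φ (2 * N)) (by
      intro b _
      by_cases hne : (((bx r N).filter (fun v => φ v ∈ E)).filter (fun v => φ v = b)).Nonempty
      · obtain ⟨x0, hx0⟩ := hne
        obtain ⟨hx0a, hx0b⟩ := Finset.mem_filter.1 hx0
        have hx0c := mem_bx.1 (Finset.mem_filter.1 hx0a).1
        refine Finset.card_le_card_of_injOn (fun v => v - x0) ?_ ?_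
        · intro v hv
          obtain ⟨hva, hvb⟩ := Finset.mem_filter.1 (Finset.mem_coe.1 hv)
          have hvc := mem_bx.1 (Finset.mem_filter.1 hva).1
          rw [Finset.mem_coe, Finset.mem_filter]
          refine ⟨mem_bx.2 fun i => ?_, by rw [map_sub, hvb, hx0b, sub_self]⟩
          obtain ⟨h1, h2⟩ := hvc i
          obtain ⟨h3, h4⟩ := hx0c i
          show -((2 * N : ℕ) : ℤ) ≤ v i - x0 i ∧ v i - x0 i ≤ ((2 * N : ℕ) : ℤ)
          push_cast
          constructor <;> linarith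
        · intro v _ w _ h
          exact sub_left_injective h
      · rw [Finset.not_nonempty_iff_eq_empty.1 hne]
        simp)
  rw [mul_comm]
  exact h1

/-- elements of the box over `E` -/
theorem lower (E : Finset Δ) (ν : Δ → (Fin r → ℤ)) (hν : ∀ c ∈ E, φ (ν c) = c) (N : ℕ)
    (hN : ∀ c ∈ E, ν c ∈ bx r N) :
    E.card * lam φ N ≤ ((bx r (2 * N)).filter (fun v => φ v ∈ E)).card := by
  unfold lam
  rw [← Finset.card_product]
  refine Finset.card_le_card_of_injOn (fun q => ν q.1 + q.2) ?_ ?_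
  · intro q hq
    obtain ⟨h1, h2⟩ := Finset.mem_product.1 (Finset.mem_coe.1 hq)
    obtain ⟨h3, h4⟩ := Finset.mem_filter.1 h2
    rw [Finset.mem_coe, Finset.mem_filter]
    refine ⟨mem_bx.2 fun i => ?_, ?_⟩
    · obtain ⟨h5, h6⟩ := mem_bx.1 (hN _ h1) i
      obtain ⟨h7, h8⟩ := mem_bx.1 h3 i
      show -((2 * N : ℕ) : ℤ) ≤ ν q.1 i + q.2 i ∧ ν q.1 i + q.2 i ≤ ((2 * N : ℕ) : ℤ)
      push_cast
      constructor <;> linarith
    · rw [map_add, hν _ h1, h4, add_zero]
      exact h1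
  · intro q hq q' hq' h
    obtain ⟨h1, h2⟩ := Finset.mem_product.1 (Finset.mem_coe.1 hq)
    obtain ⟨h1', h2'⟩ := Finset.mem_product.1 (Finset.mem_coe.1 hq')
    have h4 := (Finset.mem_filter.1 h2).2
    have h4' := (Finset.mem_filter.1 h2').2
    have h5 : ν q.1 + q.2 = ν q'.1 + q'.2 := h
    have h6 : q.1 = q'.1 := by
      have := congrArg φ h5
      rw [map_add, map_add, hν _ h1, hν _ h1', h4, h4', add_zero, add_zero] at this
      exact this
    refine Prod.ext h6 ?_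
    rw [h6] at h5
    exact add_left_cancel h5

end box

/-- Q1 for the groups `ℤ^d`, with a constant independent of `d` -/
def QZ (C : ℝ) : Prop :=
  ∀ (d : ℕ) (K : ℝ) (B : Finset (Fin d → ℤ)), B.Nonempty →
    ((B + B).card : ℝ) ≤ K * B.card → Concl C K B

theorem sub_mul_card {G : Type*} [AddCommGroup G] [DecidableEq G] {Y Z : Finset G} (t : G)
    (h : Y ⊆ Z.image (fun z => z - t)) : (Y - Y).card ≤ (Z - Z).card := by
  refine Finset.card_le_card ?_
  intro x hx
  obtain ⟨a, ha, b, hb, rfl⟩ := Finset.mem_sub.1 hx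
  obtain ⟨a', ha', rfl⟩ := Finset.mem_image.1 (h ha)
  obtain ⟨b', hb', rfl⟩ := Finset.mem_image.1 (h hb)
  have : a' - t - (b' - t) = a' - b' := by abel
  rw [this]
  exact Finset.sub_mem_sub ha' hb'

/-- **Step I**: a set with a large part in a coset of a group of small rank. -/
theorem stepI {C : ℝ} {n : ℕ} (hn1 : 1 ≤ n) (hn : C ≤ n)
    (hCK : ∀ K : ℝ, 1 ≤ K → C * K ^ C ≤ n * K ^ n) (hQ : QZ C) {Δ : Type*} [AddCommGroup Δ]
    [DecidableEq Δ] {A : Finset Δ} (hA : A.Nonempty) {M₀ M : ℝ}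
    (hK : ((A + A).card : ℝ) ≤ M₀ * A.card) {r : ℕ} (φ : (Fin r → ℤ) →+ Δ) (t : Δ)
    (A₁ : Finset Δ) (hA₁ : A₁ ⊆ A) (hφ : ∀ a ∈ A₁, ∃ v, a = t + φ v)
    (hpop : (A.card : ℝ) ≤ M₀ * A₁.card) (hr : (125 : ℝ) ^ r ≤ M₀)
    (hM : M = ((4 ^ n : ℕ) : ℝ) * (M₀ ^ 3) ^ (4 ^ n : ℕ)) :
    ∃ (d : ℕ) (X : Finset (Fin d → ℤ)) (ψ : (Fin d → ℤ) →+ Δ) (g : Δ),
      SData (M ^ 5) A X ψ ⊥ g := by
  classical
  have hM1 : 1 ≤ M₀ := one_le_K hA hK
  have hM₀0 : 0 < M₀ := by linarith
  have hAr : (0 : ℝ) < A.card := by exact_mod_cast hA.card_pos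
  have hMM : M₀ ^ 3 ≤ M := by
    rw [hM]
    have e1 : (1 : ℝ) ≤ ((4 ^ n : ℕ) : ℝ) := by exact_mod_cast Nat.one_le_pow _ _ (by norm_num)
    have e2 : M₀ ^ 3 ≤ (M₀ ^ 3) ^ (4 ^ n : ℕ) := le_self_pow₀ (one_le_pow₀ hM1) (by positivity)
    calc M₀ ^ 3 = 1 * M₀ ^ 3 := (one_mul _).symm
      _ ≤ _ := mul_le_mul e1 e2 (by positivity) (by positivity)
  have hM1' : 1 ≤ M := (one_le_pow₀ hM1).trans hMM
  have hM0 : 0 < M := by linarith
  -- the translate
  set A₂ : Finset Δ := A₁.image (fun a => a - t) with hA₂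
  have hcard₂ : A₂.card = A₁.card := Finset.card_image_of_injective _ sub_left_injective
  have hA₂φ : ∀ c ∈ A₂, ∃ v, φ v = c := by
    intro c hc
    obtain ⟨a, ha, rfl⟩ := Finset.mem_image.1 hc
    obtain ⟨v, hv⟩ := hφ a ha
    exact ⟨v, by rw [hv]; abel⟩
  choose! ν hν using hA₂φ
  obtain ⟨N, hN1, hN⟩ : ∃ N : ℕ, 1 ≤ N ∧ ∀ c ∈ A₂, ν c ∈ bx r N := by
    refine ⟨1 + ∑ c ∈ A₂, ∑ i, (ν c i).natAbs, by omega, ?_⟩
    intro c hc
    rw [mem_bx]
    intro i
    have h1 : (ν c i).natAbs ≤ 1 + ∑ c ∈ A₂, ∑ i, (ν c i).natAbs := by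
      have h2 := Finset.single_le_sum (f := fun i => (ν c i).natAbs) (fun _ _ => Nat.zero_le _)
        (Finset.mem_univ i)
      have h3 := Finset.single_le_sum (f := fun c => ∑ i, (ν c i).natAbs) (fun _ _ => Nat.zero_le _) hc
      exact (h2.trans h3).trans (Nat.le_add_left _ _)
    omega
  have hA₁ne : A₁.Nonempty := by
    rw [← Finset.card_pos]
    by_contra h
    have h0 : A₁.card = 0 := by omega
    rw [h0, Nat.cast_zero, mul_zero] at hpop
    linarith
  have hA₁r : (0 : ℝ) < A₁.card := by exact_mod_cast hA₁ne.card_pos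
  -- doubling of `A₂`
  have hdoub : ((A₂ + A₂).card : ℝ) ≤ M₀ ^ 2 * A₂.card := by
    have h1 : (A₂ + A₂).card ≤ (A + A).card := by
      refine Finset.card_le_card_of_injOn (fun x => x + (t + t)) ?_ ?_
      · intro x hx
        obtain ⟨a, ha, b, hb, rfl⟩ := Finset.mem_add.1 (Finset.mem_coe.1 hx)
        obtain ⟨a', ha', rfl⟩ := Finset.mem_image.1 ha
        obtain ⟨b', hb', rfl⟩ := Finset.mem_image.1 hb
        rw [Finset.mem_coe]
        have e : a' - t + (b' - t) + (t + t) = a' + b' := by abel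
        show a' - t + (b' - t) + (t + t) ∈ A + A
        rw [e]
        exact Finset.add_mem_add (hA₁ ha') (hA₁ hb')
      · intro x _ y _ h
        exact add_right_cancel h
    calc ((A₂ + A₂).card : ℝ) ≤ (A + A).card := by exact_mod_cast h1
      _ ≤ M₀ * A.card := hK
      _ ≤ M₀ * (M₀ * A₁.card) := mul_le_mul_of_nonneg_left hpop hM₀0.le
      _ = M₀ ^ 2 * A₂.card := by rw [hcard₂]; ring
  -- the lift
  set U : Finset (Fin r → ℤ) := (bx r (2 * N)).filter (fun v => φ v ∈ A₂) with hU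
  have hlow : A₂.card * lam φ N ≤ U.card := lower φ A₂ ν hν N hN
  have hlam : (0 : ℝ) < lam φ N := by exact_mod_cast lam_pos φ N
  have hA₂r : (0 : ℝ) < A₂.card := by rw [hcard₂]; exact hA₁r
  have hUpos : (0 : ℝ) < U.card := by
    have h1 : ((A₂.card * lam φ N : ℕ) : ℝ) ≤ U.card := by exact_mod_cast hlow
    push_cast at h1
    have : 0 < (A₂.card : ℝ) * lam φ N := mul_pos hA₂r hlam
    linarith
  have hUne : U.Nonempty := Finset.card_pos.1 (by exact_mod_cast hUpos)
  have l4 : lam φ (4 * N) ≤ 25 ^ r * lam φ N := by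
    have h1 := lam_double φ (N := 2 * N) (by omega)
    have h2 := lam_double φ hN1
    have e : 2 * (2 * N) = 4 * N := by ring
    rw [e] at h1
    calc lam φ (4 * N) ≤ 5 ^ r * lam φ (2 * N) := h1
      _ ≤ 5 ^ r * (5 ^ r * lam φ N) := Nat.mul_le_mul_left _ h2
      _ = 25 ^ r * lam φ N := by
        rw [← mul_assoc, ← mul_pow, show (5 * 5 : ℕ) = 25 from rfl]
  have l8 : lam φ (8 * N) ≤ 125 ^ r * lam φ N := by
    have h1 := lam_double φ (N := 4 * N) (by omega)
    have e : 2 * (4 * N) = 8 * N := by ring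
    rw [e] at h1
    calc lam φ (8 * N) ≤ 5 ^ r * lam φ (4 * N) := h1
      _ ≤ 5 ^ r * (25 ^ r * lam φ N) := Nat.mul_le_mul_left _ l4
      _ = 125 ^ r * lam φ N := by
        rw [← mul_assoc, ← mul_pow, show (5 * 25 : ℕ) = 125 from rfl]
  have hUU : ((U + U).card : ℝ) ≤ M₀ ^ 3 * U.card := by
    have h1 : U + U ⊆ (bx r (4 * N)).filter (fun v => φ v ∈ A₂ + A₂) := by
      intro x hx
      obtain ⟨a, ha, b, hb, rfl⟩ := Finset.mem_add.1 hx
      obtain ⟨ha1, ha2⟩ := Finset.mem_filter.1 ha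
      obtain ⟨hb1, hb2⟩ := Finset.mem_filter.1 hb
      refine Finset.mem_filter.2 ⟨mem_bx.2 fun i => ?_, by
        rw [map_add]; exact Finset.add_mem_add ha2 hb2⟩
      obtain ⟨h5, h6⟩ := mem_bx.1 ha1 i
      obtain ⟨h7, h8⟩ := mem_bx.1 hb1 i
      show -((4 * N : ℕ) : ℤ) ≤ a i + b i ∧ a i + b i ≤ ((4 * N : ℕ) : ℤ)
      push_cast at h5 h6 h7 h8 ⊢
      constructor <;> linarith
    have h2 := (Finset.card_le_card h1).trans (upper φ (A₂ + A₂) (4 * N))
    have e : 2 * (4 * N) = 8 * N := by ring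
    rw [e] at h2
    have h3 : ((U + U).card : ℝ) ≤ (A₂ + A₂).card * (125 ^ r * lam φ N) := by
      have h4 := h2.trans (Nat.mul_le_mul_left _ l8)
      exact_mod_cast h4
    calc ((U + U).card : ℝ) ≤ (A₂ + A₂).card * (125 ^ r * lam φ N) := h3
      _ ≤ (M₀ ^ 2 * A₂.card) * (M₀ * lam φ N) := by gcongr
      _ = M₀ ^ 3 * ((A₂.card * lam φ N : ℕ) : ℝ) := by push_cast; ring
      _ ≤ M₀ ^ 3 * U.card := by gcongr
  obtain ⟨d, X, θ, H₀, g, hD⟩ := data_of_concl hn1 hn hCK hUne hUU (hQ r _ U hUne hUU)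
  rw [← hM] at hD
  have hH₀ : ∀ h ∈ H₀, h = 0 := by
    intro h hh
    have hfin := hD.fin
    have h1 : (Nat.card H₀) • (⟨h, hh⟩ : H₀) = 0 := card_nsmul_eq_zero'
    have h2 : (Nat.card H₀) • h = 0 := by
      have := congrArg (Subtype.val : H₀ → (Fin r → ℤ)) h1
      rw [AddSubgroup.coe_nsmul] at this
      exact this
    have h3 : Nat.card H₀ ≠ 0 := Nat.card_pos.ne'
    funext i
    have h4 := congrFun h2 i
    simp only [Pi.smul_apply, nsmul_eq_mul, Pi.zero_apply] at h4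
    rcases mul_eq_zero.1 h4 with h5 | h5
    · exact absurd (by exact_mod_cast h5) h3
    · simpa using h5
  -- the part of `U`
  set U₁ : Finset (Fin r → ℤ) := U.filter (fun v => ∃ x ∈ X, v = g + θ x) with hU₁
  have hU₁c : (U.card : ℝ) ≤ M * U₁.card := by
    have h1 := hD.meet
    have h2 : {a : Fin r → ℤ | a ∈ U ∧ ∃ x ∈ X, ∃ h ∈ H₀, a = g + θ x + h} = (U₁ : Set _) := by
      ext a
      rw [hU₁, Finset.coe_filter]
      constructor
      · rintro ⟨h3, x, hx, h, hh, rfl⟩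
        refine ⟨h3, x, hx, ?_⟩
        rw [hH₀ h hh, add_zero]
      · rintro ⟨h3, x, hx, hax⟩
        exact ⟨h3, x, hx, 0, H₀.zero_mem, by rw [add_zero]; exact hax⟩
    rw [h2, Set.ncard_coe_finset] at h1
    exact h1
  have hXU : (X.card : ℝ) ≤ M * U.card := by
    have h1 := hD.size
    have hfin := hD.fin
    have h2 : (1 : ℝ) ≤ Nat.card H₀ := by exact_mod_cast Nat.card_pos
    calc (X.card : ℝ) = X.card * 1 := (mul_one _).symm
      _ ≤ X.card * Nat.card H₀ := mul_le_mul_of_nonneg_left h2 (Nat.cast_nonneg _)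
      _ ≤ _ := h1
  -- the corresponding part of `X`
  set D : Finset (Fin d → ℤ) := X.filter (fun x => g + θ x ∈ U) with hDd
  have hDU : (U₁.card : ℝ) ≤ D.card := by
    have h1 : U₁ ⊆ D.image (fun x => g + θ x) := by
      intro v hv
      obtain ⟨hv1, x, hx, rfl⟩ := Finset.mem_filter.1 hv
      exact Finset.mem_image.2 ⟨x, Finset.mem_filter.2 ⟨hx, hv1⟩, rfl⟩
    exact_mod_cast (Finset.card_le_card h1).trans Finset.card_image_le
  have hXD : (X.card : ℝ) ≤ M ^ 2 * D.card := by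
    calc (X.card : ℝ) ≤ M * U.card := hXU
      _ ≤ M * (M * U₁.card) := mul_le_mul_of_nonneg_left hU₁c hM0.le
      _ ≤ M * (M * D.card) := by gcongr
      _ = M ^ 2 * D.card := by ring
  have hDne : D.Nonempty := by
    rw [← Finset.card_pos]
    by_contra h
    have h0 : D.card = 0 := by omega
    rw [h0, Nat.cast_zero, mul_zero] at hXD
    have : (0 : ℝ) < X.card := by exact_mod_cast hD.ne.card_pos
    linarith
  have hXDc : ((X + D).card : ℝ) ≤ M ^ 3 * D.card := by
    have h1 : (X + D).card ≤ (X + X).card :=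
      Finset.card_le_card (Finset.add_subset_add_left (Finset.filter_subset _ _))
    calc ((X + D).card : ℝ) ≤ (X + X).card := by exact_mod_cast h1
      _ ≤ M * X.card := hD.doubling
      _ ≤ M * (M ^ 2 * D.card) := mul_le_mul_of_nonneg_left hXD hM0.le
      _ = M ^ 3 * D.card := by ring
  obtain ⟨F, -, hF, hcovF⟩ := Finset.ruzsa_covering_add hDne hXDc
  -- the image of `X`
  have hA₂ne : A₂.Nonempty := hA₁ne.image _
  have hA₂d := ruzsa_diff hA₂ne hdoub
  have himg : ((X.image (fun x => φ (θ x))).card : ℝ) ≤ M ^ 5 * A.card := by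
    have h1 : X.image (fun x => φ (θ x)) ⊆ F.image (fun x => φ (θ x)) +
        (D.image (fun x => φ (θ x)) - D.image (fun x => φ (θ x))) := by
      intro y hy
      obtain ⟨x, hx, rfl⟩ := Finset.mem_image.1 hy
      obtain ⟨f, hf, e, he, rfl⟩ := Finset.mem_add.1 (hcovF hx)
      obtain ⟨a, ha, b, hb, rfl⟩ := Finset.mem_sub.1 he
      simp only [map_add, map_sub]
      exact Finset.add_mem_add (Finset.mem_image_of_mem _ hf)
        (Finset.sub_mem_sub (Finset.mem_image_of_mem _ ha) (Finset.mem_image_of_mem _ hb))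
    have h2 : (D.image (fun x => φ (θ x)) - D.image (fun x => φ (θ x))).card ≤ (A₂ - A₂).card := by
      refine sub_mul_card (φ g) ?_
      intro y hy
      obtain ⟨x, hx, rfl⟩ := Finset.mem_image.1 hy
      obtain ⟨-, hx2⟩ := Finset.mem_filter.1 hx
      obtain ⟨-, hx3⟩ := Finset.mem_filter.1 hx2
      rw [map_add] at hx3
      exact Finset.mem_image.2 ⟨_, hx3, by abel⟩
    have h3 : ((X.image (fun x => φ (θ x))).card : ℝ) ≤ F.card * (A₂ - A₂).card := by
      have h4 := (Finset.card_le_card h1).trans Finset.card_add_le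
      have h5 : (F.image (fun x => φ (θ x))).card ≤ F.card := Finset.card_image_le
      exact_mod_cast h4.trans (Nat.mul_le_mul h5 h2)
    have h6 : M₀ ^ 4 ≤ M ^ 2 := by
      calc M₀ ^ 4 ≤ M₀ ^ 6 := pow_le_pow_right₀ hM1 (by norm_num)
        _ = (M₀ ^ 3) ^ 2 := by ring
        _ ≤ M ^ 2 := pow_le_pow_left₀ (by positivity) hMM 2
    calc ((X.image (fun x => φ (θ x))).card : ℝ) ≤ F.card * (A₂ - A₂).card := h3
      _ ≤ M ^ 3 * ((M₀ ^ 2) ^ 2 * A₂.card) := mul_le_mul hF hA₂d (Nat.cast_nonneg _) (by positivity)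
      _ = M ^ 3 * (M₀ ^ 4 * A₂.card) := by rw [← pow_mul]
      _ ≤ M ^ 3 * (M ^ 2 * A₂.card) := by gcongr
      _ = M ^ 5 * A₂.card := by ring
      _ ≤ M ^ 5 * A.card := by
        have : (A₂.card : ℝ) ≤ A.card := by
          rw [hcard₂]; exact_mod_cast Finset.card_le_card hA₁
        gcongr
  have hM5 : M ≤ M ^ 5 := le_self_pow₀ hM1' (by norm_num)
  refine ⟨d, X, φ.comp θ, t + φ g, ⟨hD.ne, inferInstance, ?_, ?_, ?_, ?_⟩⟩
  · exact hD.doubling.trans (mul_le_mul_of_nonneg_right hM5 (Nat.cast_nonneg _))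
  · exact hD.dense.trans (mul_le_mul_of_nonneg_right hM5 (Nat.cast_nonneg _))
  · have h1 : cpr (X : Set (Fin d → ℤ)) (φ.comp θ) (⊥ : AddSubgroup Δ) =
        ((X.image (fun x => φ (θ x)) : Finset Δ) : Set Δ) := by
      ext y
      constructor
      · rintro ⟨x, hx, h, hh, rfl⟩
        rw [AddSubgroup.mem_bot.1 hh, add_zero]
        exact Finset.mem_coe.2 (Finset.mem_image.2 ⟨x, Finset.mem_coe.1 hx, rfl⟩)
      · intro hy
        obtain ⟨x, hx, rfl⟩ := Finset.mem_image.1 (Finset.mem_coe.1 hy)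
        exact ⟨x, Finset.mem_coe.2 hx, 0, AddSubgroup.zero_mem _, (add_zero _).symm⟩
    rw [h1, Set.ncard_coe_finset]
    exact himg
  · -- meet
    set J : Finset Δ := A.filter (fun a => ∃ x ∈ X, ∃ h ∈ (⊥ : AddSubgroup Δ),
      a = t + φ g + (φ.comp θ) x + h) with hJ
    have h1 : {a : Δ | a ∈ A ∧ ∃ x ∈ X, ∃ h ∈ (⊥ : AddSubgroup Δ),
        a = t + φ g + (φ.comp θ) x + h} = (J : Set Δ) := by
      ext a
      rw [hJ, Finset.coe_filter]
    rw [h1, Set.ncard_coe_finset]
    -- the image of `U₁`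
    have h2 : (U₁.image φ).image (fun c => c + t) ⊆ J := by
      intro y hy
      obtain ⟨c, hc, rfl⟩ := Finset.mem_image.1 hy
      obtain ⟨v, hv, rfl⟩ := Finset.mem_image.1 hc
      obtain ⟨hv1, x, hx, rfl⟩ := Finset.mem_filter.1 hv
      obtain ⟨-, hv2⟩ := Finset.mem_filter.1 hv1
      obtain ⟨a, ha, hav⟩ := Finset.mem_image.1 hv2
      have e : φ (g + θ x) + t = a := by rw [← hav]; abel
      rw [hJ, Finset.mem_filter]
      refine ⟨by rw [e]; exact hA₁ ha, x, hx, 0, AddSubgroup.zero_mem _, ?_⟩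
      show φ (g + θ x) + t = t + φ g + φ (θ x) + 0
      rw [map_add]
      abel
    have h3 : (U₁.image φ).card ≤ J.card := by
      rw [← Finset.card_image_of_injective (U₁.image φ) (add_left_injective t)]
      exact Finset.card_le_card h2
    have h4 : U₁.card ≤ (U₁.image φ).card * lam φ (4 * N) := by
      have h5 : U₁ ⊆ (bx r (2 * N)).filter (fun v => φ v ∈ U₁.image φ) := by
        intro v hv
        exact Finset.mem_filter.2 ⟨(Finset.mem_filter.1 (Finset.mem_filter.1 hv).1).1,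
          Finset.mem_image_of_mem _ hv⟩
      have h6 := (Finset.card_le_card h5).trans (upper φ (U₁.image φ) (2 * N))
      have e : 2 * (2 * N) = 4 * N := by ring
      rwa [e] at h6
    have h5 : (U₁.card : ℝ) ≤ J.card * (25 ^ r * lam φ N) := by
      have h6 := h4.trans (Nat.mul_le_mul h3 l4)
      exact_mod_cast h6
    have h25 : (25 : ℝ) ^ r ≤ M₀ :=
      (pow_le_pow_left₀ (by norm_num) (by norm_num) r).trans hr
    have h6 : (A₂.card : ℝ) * lam φ N ≤ (M * (J.card * M₀)) * lam φ N := by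
      calc (A₂.card : ℝ) * lam φ N ≤ U.card := by exact_mod_cast hlow
        _ ≤ M * U₁.card := hU₁c
        _ ≤ M * (J.card * (25 ^ r * lam φ N)) := by gcongr
        _ ≤ M * (J.card * (M₀ * lam φ N)) := by gcongr
        _ = _ := by ring
    have h7 : (A₂.card : ℝ) ≤ M * (J.card * M₀) := le_of_mul_le_mul_right h6 hlam
    have h8 : M₀ ^ 2 * M ≤ M ^ 5 := by
      calc M₀ ^ 2 * M ≤ M₀ ^ 3 * M := by
            have : M₀ ^ 2 ≤ M₀ ^ 3 := pow_le_pow_right₀ hM1 (by norm_num)
            gcongr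
        _ ≤ M * M := by gcongr
        _ = M ^ 2 := by ring
        _ ≤ M ^ 5 := pow_le_pow_right₀ hM1' (by norm_num)
    calc (A.card : ℝ) ≤ M₀ * A₁.card := hpop
      _ = M₀ * A₂.card := by rw [hcard₂]
      _ ≤ M₀ * (M * (J.card * M₀)) := by gcongr
      _ = (M₀ ^ 2 * M) * J.card := by ring
      _ ≤ M ^ 5 * J.card := by gcongr

end Pool.Agent.H608VF
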