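import Pool.Agent.H24.Lib.seeded_620a6dc7.helper608_VF_.V6
import Pool.Agent.H24.Lib.R_seed8.H137R2.Weak.Final

/-!
# Coverings and data; quotients by almost periods; homomorphic images
-/

set_option autoImplicit false

namespace Pool.Agent.H608VF

open Finset
open Pool.Agent.Y806.DF Pool.Agent.R92.Star
open scoped Pointwise

universe u v

/-- bounds for the dimension -/
theorem four_pow {C : ℝ} {n : ℕ} (hn : C ≤ n) {K : ℝ} (hK1 : 1 ≤ K) {d : ℕ}
    (hd : (d : ℝ) ≤ C * Real.log (2 * K)) :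
    (4 : ℝ) ^ d ≤ ((4 ^ n : ℕ) : ℝ) * K ^ (4 ^ n : ℕ) := by
  have hK0 : 0 < K := by linarith
  have hlog0 : 0 ≤ Real.log (2 * K) := Real.log_nonneg (by linarith)
  have h4n : 2 * n ≤ 4 ^ n := by
    calc 2 * n ≤ 2 ^ (2 * n) := Nat.lt_two_pow_self.le
      _ = 4 ^ n := by rw [pow_mul]; norm_num
  have e1 : (d : ℝ) ≤ n * Real.log (2 * K) := hd.trans (mul_le_mul_of_nonneg_right hn hlog0)
  have e2 : Real.log 4 ≤ 2 := by
    rw [show (4 : ℝ) = 2 ^ 2 by norm_num, Real.log_pow]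
    have := Real.log_two_lt_d9
    push_cast
    linarith
  have e3 : Real.log ((4 : ℝ) ^ d) ≤ Real.log ((2 * K) ^ (2 * n)) := by
    rw [Real.log_pow, Real.log_pow]
    calc (d : ℝ) * Real.log 4 ≤ d * 2 := mul_le_mul_of_nonneg_left e2 (Nat.cast_nonneg _)
      _ ≤ (n * Real.log (2 * K)) * 2 := mul_le_mul_of_nonneg_right e1 (by norm_num)
      _ = ((2 * n : ℕ) : ℝ) * Real.log (2 * K) := by push_cast; ring
  have e4 : (4 : ℝ) ^ d ≤ (2 * K) ^ (2 * n) :=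
    (Real.log_le_log_iff (by positivity) (by positivity)).1 e3
  calc (4 : ℝ) ^ d ≤ (2 * K) ^ (2 * n) := e4
    _ = ((4 ^ n : ℕ) : ℝ) * K ^ (2 * n) := by
      rw [mul_pow, pow_mul 2 2 n]
      push_cast
      norm_num
    _ ≤ ((4 ^ n : ℕ) : ℝ) * K ^ (4 ^ n : ℕ) :=
      mul_le_mul_of_nonneg_left (pow_le_pow_right₀ hK1 h4n) (Nat.cast_nonneg _)

theorem poly_le {n : ℕ} (_hn1 : 1 ≤ n) {K : ℝ} (hK1 : 1 ≤ K) :
    ((n : ℕ) : ℝ) * K ^ n ≤ ((4 ^ n : ℕ) : ℝ) * K ^ (4 ^ n : ℕ) := by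
  have hK0 : 0 < K := by linarith
  have h4n : n ≤ 4 ^ n := (Nat.lt_pow_self (by norm_num)).le
  have e1 : ((n : ℕ) : ℝ) ≤ ((4 ^ n : ℕ) : ℝ) := by exact_mod_cast h4n
  exact mul_le_mul e1 (pow_le_pow_right₀ hK1 h4n) (by positivity) (Nat.cast_nonneg _)

/-- From a covering by few translates of a convex coset progression with few elements to `SData`. -/
theorem sdata_of_cov {Γ : Type*} [AddCommGroup Γ] [DecidableEq Γ] {M : ℝ} {A : Finset Γ}
    (hA : A.Nonempty) (hM : 1 ≤ M) {d : ℕ} {B : Set (Fin d → ℝ)} {ψ : (Fin d → ℤ) →+ Γ}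
    {H : AddSubgroup Γ} {T : Finset Γ} (hd : (4 : ℝ) ^ d ≤ M) (hB : Body B) (hH : Finite H)
    (hvol : ((cpr (lat B) ψ H).ncard : ℝ) ≤ M * A.card) (hT : (T.card : ℝ) ≤ M)
    (hcov : Cov B ψ H T A) :
    ∃ (X : Finset (Fin d → ℤ)) (g : Γ), (X : Set (Fin d → ℤ)) = lat B ∧ SData M A X ψ H g := by
  classical
  have hsym : Sym B := ⟨hB.1, hB.2.1, hB.2.2.2, hB.2.2.1.mono interior_subset⟩
  have hfin : (lat B).Finite := lat_finite hB.2.1.isBounded
  -- the popular translate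
  obtain ⟨t, ht, ht2⟩ := pigeon T A A hA (fun t a => ∃ x ∈ hfin.toFinset, ∃ h ∈ H, a = t + ψ x + h)
    subset_rfl (by
      intro a ha
      obtain ⟨t, ht, x, hx, h, hh, e⟩ := hcov a ha
      exact ⟨t, ht, x, (Set.Finite.mem_toFinset _).2 hx, h, hh, e⟩)
  refine ⟨hfin.toFinset, t, hfin.coe_toFinset, ⟨?_, hH, ?_, ?_, ?_, ?_⟩⟩
  · refine ⟨0, ?_⟩
    rw [Set.Finite.mem_toFinset]
    show re 0 ∈ B
    have : re (0 : Fin d → ℤ) = 0 := by funext i; simp [re]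
    rw [this]
    exact hsym.zero
  · have h1 : (hfin.toFinset + hfin.toFinset).card ≤ num B 2 := by
      rw [num, Set.ncard_eq_toFinset_card _ (hsym.finite 2)]
      refine Finset.card_le_card ?_
      intro x hx
      obtain ⟨a, ha, b, hb, rfl⟩ := Finset.mem_add.1 hx
      rw [Set.Finite.mem_toFinset] at ha hb ⊢
      have ha' : a ∈ lat ((1 : ℝ) • B) := by rw [one_smul]; exact ha
      have hb' : b ∈ lat ((1 : ℝ) • B) := by rw [one_smul]; exact hb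
      have h2 := hsym.add (by norm_num) (by norm_num) ha' hb'
      norm_num at h2
      exact h2
    have h2 : num B 2 ≤ 4 ^ d * hfin.toFinset.card := by
      have h3 := num_double hsym (t := 1) (by norm_num)
      rw [mul_one] at h3
      have h4 : num B 1 = hfin.toFinset.card := by
        rw [num, one_smul]
        exact Set.ncard_eq_toFinset_card _ hfin
      rwa [h4] at h3
    calc ((hfin.toFinset + hfin.toFinset).card : ℝ) ≤ ((4 ^ d * hfin.toFinset.card : ℕ) : ℝ) := by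
          exact_mod_cast h1.trans h2
      _ = (4 : ℝ) ^ d * hfin.toFinset.card := by push_cast; rfl
      _ ≤ _ := mul_le_mul_of_nonneg_right hd (Nat.cast_nonneg _)
  · have h1 : hull hfin.toFinset ⊆ (hfin.toFinset : Set (Fin d → ℤ)) := by
      intro v hv
      rw [Finset.mem_coe, Set.Finite.mem_toFinset]
      refine convexHull_min ?_ hsym.conv hv
      rintro _ ⟨x, hx, rfl⟩
      rw [Finset.mem_coe, Set.Finite.mem_toFinset] at hx
      exact hx
    have h2 := Set.ncard_le_ncard h1 (Finset.finite_toSet _)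
    rw [Set.ncard_coe_finset] at h2
    calc ((hull hfin.toFinset).ncard : ℝ) ≤ 1 * hfin.toFinset.card := by rw [one_mul]; exact_mod_cast h2
      _ ≤ _ := mul_le_mul_of_nonneg_right hM (Nat.cast_nonneg _)
  · rw [hfin.coe_toFinset]
    exact hvol
  · have h1 : {a : Γ | a ∈ A ∧ ∃ x ∈ hfin.toFinset, ∃ h ∈ H, a = t + ψ x + h} =
        ((A.filter (fun a => ∃ x ∈ hfin.toFinset, ∃ h ∈ H, a = t + ψ x + h) : Finset Γ) : Set Γ) := by
      rw [Finset.coe_filter]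
    rw [h1, Set.ncard_coe_finset]
    calc (A.card : ℝ) ≤ T.card * (A.filter (fun a => ∃ x ∈ hfin.toFinset, ∃ h ∈ H, a = t + ψ x + h)).card := by
          exact_mod_cast ht2
      _ ≤ _ := mul_le_mul_of_nonneg_right hT (Nat.cast_nonneg _)

theorem cpr_finite {Γ : Type*} [AddCommGroup Γ] {r : ℕ} {V : Set (Fin r → ℤ)} (hV : V.Finite)
    (ψ : (Fin r → ℤ) →+ Γ) (H : AddSubgroup Γ) [Finite H] : (cpr V ψ H).Finite := by
  have : cpr V ψ H ⊆ ψ '' V + (H : Set Γ) := by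
    rintro y ⟨v, hv, h, hh, rfl⟩
    exact Set.add_mem_add ⟨v, hv, rfl⟩ hh
  exact ((hV.image _).add (Set.toFinite _)).subset this

theorem ncard_cpr_le {Γ : Type*} [AddCommGroup Γ] {r : ℕ} {V : Set (Fin r → ℤ)} (hV : V.Finite)
    (ψ : (Fin r → ℤ) →+ Γ) (H : AddSubgroup Γ) [Finite H] :
    (cpr V ψ H).ncard ≤ V.ncard * Nat.card H := by
  rw [ncard_cpr]
  exact Nat.mul_le_mul_right _ (Set.ncard_image_le hV)

/-- From a covering to the conclusion. -/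
theorem concl_of_cov (a b : ℕ) : ∃ C' : ℝ, ∀ (Γ : Type u) [AddCommGroup Γ] [DecidableEq Γ]
    (K : ℝ) (A : Finset Γ), A.Nonempty → ((A + A).card : ℝ) ≤ K * A.card →
    ∀ (d : ℕ) (B : Set (Fin d → ℝ)) (ψ : (Fin d → ℤ) →+ Γ) (H : AddSubgroup Γ) (T : Finset Γ),
      1 ≤ (a : ℝ) * K ^ b → (4 : ℝ) ^ d ≤ a * K ^ b → Body B → Finite H →
      ((cpr (lat B) ψ H).ncard : ℝ) ≤ (a * K ^ b) * A.card → (T.card : ℝ) ≤ a * K ^ b →
      Cov B ψ H T A → Concl C' K A := by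
  obtain ⟨e, he⟩ : ∃ e : ℕ, e = 8366 := ⟨_, rfl⟩
  obtain ⟨q, hq⟩ : ∃ q : ℕ, q = 16777216 := ⟨_, rfl⟩
  obtain ⟨C', hC'⟩ := Pool.Agent.R424.EX.concl_of.{u} (q * a ^ e) (b * e)
  refine ⟨C', ?_⟩
  intro Γ _ _ K A hA hK d B ψ H T hM hd hB hH hvol hT hcov
  obtain ⟨X, g, -, hS⟩ := sdata_of_cov hA hM hd hB hH hvol hT hcov
  obtain ⟨r, X', ψ', g', hD⟩ := to_data hA hM hS
  refine hC' Γ K A hA hK r X' ψ' H g' (hD.mono (le_of_eq ?_))
  rw [← he, mul_pow, ← pow_mul, Nat.cast_mul, Nat.cast_pow, hq]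
  push_cast
  ring

end Pool.Agent.H608VF
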